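import Pool.Agent.KDT.StmtsK
import Pool.Agent.Helper98_SZT.CNT
import Pool.Agent.Helper25_SZT.BDK
import Pool.Agent.Helper77_SZT.MIK

/-!
# KDT, row VGC: few multiples are not very good (helper16)
-/

set_option autoImplicit false

namespace Pool.Agent.KDT.H16

open Polynomial H58Q Pool.Agent.SZT
open Pool.Agent.SZT.H98 (sc_refl sc_symm sc_trans sc_mul sc_prin sc_mul_span sc_of_mod
  dvd_of_prin eq_of_sc)

/-! ### base change -/

theorem map_MI {K E : Type} [Field K] [Field E] (φ : K →+* E) (f A B : K[X]) :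
    (MI f A B).map (Q.map φ f) = MI (f.map φ) (A.map φ) (B.map φ) := by
  unfold MI
  rw [Ideal.map_span, Set.image_pair]
  have h1 : Q.map φ f ⟨A, 0⟩ = ⟨A.map φ, 0⟩ := by
    apply QuadraticAlgebra.ext
    · rw [Q.map_re]
    · rw [Q.map_im]
      exact Polynomial.map_zero φ
  have h2 : Q.map φ f ⟨-B, 1⟩ = ⟨-(B.map φ), 1⟩ := by
    apply QuadraticAlgebra.ext
    · rw [Q.map_re]
      exact Polynomial.map_neg φ
    · rw [Q.map_im]
      exact Polynomial.map_one φ
  rw [h1, h2]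

theorem sc_map {R S : Type} [CommRing R] [CommRing S] (ψ : R →+* S) (hψ : Function.Injective ψ)
    {I J : Ideal R} (h : SameCl I J) : SameCl (I.map ψ) (J.map ψ) := by
  obtain ⟨a, b, ha, hb, h⟩ := h
  refine ⟨ψ a, ψ b, ?_, ?_, ?_⟩
  · intro h0
    exact ha (hψ (h0.trans (map_zero ψ).symm))
  · intro h0
    exact hb (hψ (h0.trans (map_zero ψ).symm))
  · have h1 := congrArg (Ideal.map ψ) h
    rw [Ideal.map_mul, Ideal.map_mul, Ideal.map_span, Ideal.map_span, Set.image_singleton,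
      Set.image_singleton] at h1
    exact h1

theorem map_ne_bot {R S : Type} [CommRing R] [CommRing S] (ψ : R →+* S)
    (hψ : Function.Injective ψ) {I : Ideal R} (h : I ≠ ⊥) : I.map ψ ≠ ⊥ := by
  intro h1
  exact h ((Ideal.map_eq_bot_iff_of_injective hψ).1 h1)

theorem map_prin {R S : Type} [CommRing R] [CommRing S] (ψ : R →+* S) {I : Ideal R}
    (h : I.IsPrincipal) : (I.map ψ).IsPrincipal := by
  obtain ⟨a, ha⟩ := h
  refine ⟨⟨ψ a, ?_⟩⟩
  have h1 : I = Ideal.span {a} := ha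
  rw [h1, Ideal.map_span, Set.image_singleton]

theorem map_kum {K E : Type} [Field K] [Field E] (φ : K →+* E) (f A B : K[X]) (i : Fin 4) :
    φ (kum f A B i) = kum (f.map φ) (A.map φ) (B.map φ) i := by
  unfold kum
  fin_cases i <;> simp [coeff_map]

/-! ### the point behind a root of `A` -/

theorem split_at {K : Type} [Field K] (mik : MikStatement) (f A B : K[X]) (t : K)
    (hsq : Squarefree f) (hM : Mum f A B) (hA2 : A.natDegree = 2) (hft : f.IsRoot t)
    (hAt : A.IsRoot t) :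
    ∃ a b : K, Mum f (X - C a) (C b) ∧
      MI f (X - C t) 0 * MI f (X - C a) (C b) = MI f A B := by
  have htA : (X - C t) ∣ A := dvd_iff_isRoot.2 hAt
  have htf : (X - C t) ∣ f := dvd_iff_isRoot.2 hft
  have htB : (X - C t) ∣ B := by
    have h1 : (X - C t) ∣ B ^ 2 - f := htA.trans hM.dvd
    have h3 : (X - C t) ∣ B ^ 2 := by
      have := dvd_add h1 htf
      rwa [sub_add_cancel] at this
    exact (prime_X_sub_C t).dvd_of_dvd_pow h3
  obtain ⟨A1, hA1⟩ := htA
  have hA1m : A1.Monic := by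
    have h3 : ((X - C t) * A1).Monic := hA1 ▸ hM.monic
    exact (monic_X_sub_C t).of_mul_monic_left h3
  have hA1d : A1.natDegree = 1 := by
    have := natDegree_mul (X_sub_C_ne_zero t) hA1m.ne_zero
    rw [← hA1, hA2, natDegree_X_sub_C] at this
    omega
  obtain ⟨a, rfl⟩ : ∃ a, A1 = X - C a := by
    refine ⟨-A1.coeff 0, ?_⟩
    rw [C_neg, sub_neg_eq_add]
    exact hA1m.eq_X_add_C hA1d
  have hat : a ≠ t := by
    rintro rfl
    have h3 : (X - C a) * (X - C a) ∣ B ^ 2 := by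
      rw [pow_two]; exact mul_dvd_mul htB htB
    have h4 : (X - C a) * (X - C a) ∣ B ^ 2 - f := hA1 ▸ hM.dvd
    have h5 : (X - C a) * (X - C a) ∣ f := by
      have := dvd_sub h3 h4
      rwa [sub_sub_cancel] at this
    exact (not_isUnit_X_sub_C a) (hsq _ h5)
  obtain ⟨b, hb⟩ : ∃ b, b = B.eval a := ⟨_, rfl⟩
  have hBa : (X - C a) ∣ B - C b := by
    rw [dvd_iff_isRoot, IsRoot, eval_sub, eval_C, hb, sub_self]
  have haA : (X - C a) ∣ A := hA1 ▸ dvd_mul_left _ _
  have hdb : (X - C a) ∣ C b ^ 2 - f := by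
    have h3 : C b ^ 2 - f = (B ^ 2 - f) - (B - C b) * (B + C b) := by ring
    rw [h3]
    exact dvd_sub (haA.trans hM.dvd) (Dvd.dvd.mul_right hBa _)
  have hdt0 : (X - C t) ∣ (0 : K[X]) ^ 2 - f := by
    have h3 : (0 : K[X]) ^ 2 - f = -f := by ring
    rw [h3]
    exact (dvd_neg).2 htf
  refine ⟨a, b, ⟨monic_X_sub_C a, ?_, hdb⟩, ?_⟩
  · rw [degree_X_sub_C]
    exact lt_of_le_of_lt degree_C_le (by norm_num)
  · rw [Ideal.mul_eq_inf_of_isCoprime (Pool.Agent.SZT.H25.sub_unit f a t hat 0 (C b))]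
    ext x
    obtain ⟨U, W⟩ := x
    rw [Ideal.mem_inf, mik K f (X - C t) 0 U W hdt0, mik K f (X - C a) (C b) U W hdb,
      mik K f A B U W hM.dvd]
    have e1 : (X - C t) ∣ U + W * 0 ↔ (X - C t) ∣ U + W * B := by
      rw [mul_zero, add_zero]
      exact (dvd_add_left (Dvd.dvd.mul_left htB W)).symm
    have e2 : (X - C a) ∣ U + W * C b ↔ (X - C a) ∣ U + W * B := by
      have h3 : U + W * B = (U + W * C b) + W * (B - C b) := by ring
      rw [h3]
      exact (dvd_add_left (Dvd.dvd.mul_left hBa W)).symm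
    rw [e1, e2, hA1]
    constructor
    · rintro ⟨h3, h4⟩
      exact (isCoprime_X_sub_C_of_isUnit_sub
        (isUnit_iff_ne_zero.2 (sub_ne_zero.2 hat.symm))).mul_dvd h3 h4
    · intro h3
      exact ⟨(dvd_mul_right _ _).trans h3, (dvd_mul_left _ _).trans h3⟩

theorem mk_ne {K : Type} [Field K] {f P : K[X]} (h : P ≠ 0) : (⟨P, 0⟩ : Q K f) ≠ 0 := by
  intro h1
  exact h (congrArg QuadraticAlgebra.re h1)

/-- square of the ideal of a root -/
theorem root_sq {K : Type} [Field K] (mii : MiiStatement) (f : K[X]) (t : K) (h2 : (2 : K) ≠ 0)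
    (hsq : Squarefree f) (ht : f.IsRoot t) :
    MI f (X - C t) 0 * MI f (X - C t) 0 = Ideal.span {(⟨X - C t, 0⟩ : Q K f)} := by
  have h1 := mii K f (X - C t) 0 h2 hsq (by
    have : (0 : K[X]) ^ 2 - f = - f := by ring
    rw [this]
    exact (dvd_neg).mpr (dvd_iff_isRoot.mpr ht))
  rwa [neg_zero] at h1

/-- the translate is the product with the ideal of the root -/
theorem trl_sc {K : Type} [Field K] (mii : MiiStatement) {f A B A' B' V : K[X]} {a : K}
    (h2 : (2 : K) ≠ 0) (hsq : Squarefree f) (h : Trl f A B a A' B' V) :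
    SameCl (MI f A B * MI f (X - C a) 0) (MI f A' B') := by
  have hA' : A' ≠ 0 := h.mum.monic.ne_zero
  refine ⟨⟨A', 0⟩, ⟨-V, 1⟩, mk_ne hA', ?_, ?_⟩
  · intro h1
    have h3 := congrArg QuadraticAlgebra.im h1
    exact one_ne_zero h3
  · have h3 := mii K f A' B' h2 hsq h.mum.dvd
    rw [← h3, ← h.idl]
    ring

/-! ### one pair of roots -/

theorem one_pair {K : Type} [Field K] (mii : MiiStatement) (pai : PaiStatement)
    (sid : SidStatement) (f : K[X]) (J : Ideal (Q K f)) (N : ℕ) (h2 : (2 : K) ≠ 0)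
    (hsq : Squarefree f) (hdeg : f.natDegree = 5) (hJ : J ≠ ⊥) (hN : 0 < N)
    (hp : (J ^ N).IsPrincipal) (hmin : ∀ j, 0 < j → j < N → ¬ (J ^ j).IsPrincipal)
    (L : ℕ → Ideal (Q K f)) (hL : ∀ k, SameCl (L k) (J ^ k)) (a b : K) (ha : f.IsRoot a)
    (hb : f.IsRoot b) (S : Finset ℕ)
    (hS : ∀ k ∈ S, k < N ∧ ∃ x y : K, Mum f (X - C x) (C y) ∧
      SameCl (L k * MI f (X - C a) 0) (MI f (X - C b) 0 * MI f (X - C x) (C y))) :
    S.card ≤ Nat.sqrt (2 * N) + 1 := by
  have hdom : IsDomain (Q K f) := isDomain (g := 2) (by rw [hdeg])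
  have hsa := root_sq mii f a h2 hsq ha
  have hsb := root_sq mii f b h2 hsq hb
  have hna : (⟨X - C a, 0⟩ : Q K f) ≠ 0 := mk_ne (X_sub_C_ne_zero a)
  have hnb : (⟨X - C b, 0⟩ : Q K f) ≠ 0 := mk_ne (X_sub_C_ne_zero b)
  have hmul : ∀ k l, SameCl (L k * L l) (J ^ (k + l)) := by
    intro k l
    rw [pow_add]
    exact sc_mul (hL k) (hL l)
  -- products of two points
  have hPP : ∀ (P P' : Ideal (Q K f)) (i j : ℕ),
      SameCl (L i * MI f (X - C a) 0) (MI f (X - C b) 0 * P) →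
      SameCl (L j * MI f (X - C a) 0) (MI f (X - C b) 0 * P') →
      SameCl (P * P') (J ^ (i + j)) := by
    intro P P' i j e1 e2
    have h1 := sc_mul e1 e2
    have h3 : L i * MI f (X - C a) 0 * (L j * MI f (X - C a) 0) =
        Ideal.span {(⟨X - C a, 0⟩ : Q K f)} * (L i * L j) := by
      rw [← hsa]
      ring
    have h4 : MI f (X - C b) 0 * P * (MI f (X - C b) 0 * P') =
        Ideal.span {(⟨X - C b, 0⟩ : Q K f)} * (P * P') := by
      rw [← hsb]
      ring
    rw [h3, h4] at h1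
    exact sc_trans (sc_symm (sc_mul_span _ hnb)) (sc_trans (sc_symm h1)
      (sc_trans (sc_mul_span _ hna) (hmul i j)))
  -- the point determines `k`
  have hinj : ∀ (P : Ideal (Q K f)) (k l : ℕ), k < N → l < N →
      SameCl (L k * MI f (X - C a) 0) (MI f (X - C b) 0 * P) →
      SameCl (L l * MI f (X - C a) 0) (MI f (X - C b) 0 * P) → k = l := by
    intro P k l hk hl e1 e2
    have h1 : SameCl (L k * MI f (X - C a) 0 * MI f (X - C a) 0)
        (L l * MI f (X - C a) 0 * MI f (X - C a) 0) :=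
      sc_mul (sc_trans e1 (sc_symm e2)) (sc_refl _)
    have h3 : ∀ i, L i * MI f (X - C a) 0 * MI f (X - C a) 0 =
        Ideal.span {(⟨X - C a, 0⟩ : Q K f)} * L i := by
      intro i
      rw [← hsa]
      ring
    rw [h3, h3] at h1
    have h4 : SameCl (L k) (L l) :=
      sc_trans (sc_symm (sc_mul_span _ hna)) (sc_trans h1 (sc_mul_span _ hna))
    exact eq_of_sc hJ hp hmin hk hl (sc_trans (sc_symm (hL k)) (sc_trans h4 (hL l)))
  have hd1 : ∀ x : K, (X - C x).natDegree ≤ 1 := fun x => (natDegree_X_sub_C x).le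
  refine sid N S hN (fun k hk => (hS k hk).1) ?_
  intro k hk l hl k' hk' l' hl' hnd hmod
  obtain ⟨hkN, xk, yk, mk, ek⟩ := hS k hk
  obtain ⟨hlN, xl, yl, ml, el⟩ := hS l hl
  obtain ⟨hkN', xk', yk', mk', ek'⟩ := hS k' hk'
  obtain ⟨hlN', xl', yl', ml', el'⟩ := hS l' hl'
  have hsc : SameCl (MI f (X - C xk) (C yk) * MI f (X - C xl) (C yl))
      (MI f (X - C xk') (C yk') * MI f (X - C xl') (C yl')) :=
    sc_trans (hPP _ _ k l ek el) (sc_trans (sc_of_mod hJ hp hmod)
      (sc_symm (hPP _ _ k' l' ek' el')))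
  have hnp : ¬ (MI f (X - C xk) (C yk) * MI f (X - C xl) (C yl)).IsPrincipal := fun h =>
    hnd (dvd_of_prin hJ hN hp hmin (sc_prin (sc_symm (hPP _ _ k l ek el)) h))
  rcases pai K f (X - C xk) (C yk) (X - C xl) (C yl) (X - C xk') (C yk') (X - C xl') (C yl')
    h2 hsq hdeg mk ml mk' ml' (hd1 _) (hd1 _) (hd1 _) (hd1 _) hnp hsc with
    ⟨e1, e2, e3, e4⟩ | ⟨e1, e2, e3, e4⟩
  · left
    rw [← e1, ← e2] at ek'
    rw [← e3, ← e4] at el'
    exact ⟨hinj _ k k' hkN hkN' ek ek', hinj _ l l' hlN hlN' el el'⟩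
  · right
    rw [← e3, ← e4] at ek'
    rw [← e1, ← e2] at el'
    exact ⟨hinj _ k l' hkN hlN' ek el', hinj _ l k' hlN hkN' el ek'⟩

theorem vgc (cnt : CntStatement) (pai : PaiStatement) (sid : SidStatement)
    (mii : MiiStatement) (_bdk : BdkStatement) (trl : TrlStatement) (gmp : GmpStatement)
    (vgt : VgtStatement) (bc1 : UBT.BC1Stmt) : VgcStatement := by
  classical
  intro K _ _ f I N A B hmon hdeg hsq hI hN hprin hdat
  have h2K : (2 : K) ≠ 0 := two_ne_zero
  obtain ⟨E, hE⟩ : ∃ E : Type, E = AlgebraicClosure K := ⟨_, rfl⟩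
  subst hE
  set φ : K →+* AlgebraicClosure K := algebraMap K (AlgebraicClosure K) with hφ
  have hφi : Function.Injective φ := φ.injective
  have h2E : (2 : AlgebraicClosure K) ≠ 0 := by
    have h : φ 2 = 2 := map_ofNat φ 2
    rw [← h]
    intro h0
    exact h2K (hφi (h0.trans (map_zero φ).symm))
  obtain ⟨F, hF⟩ : ∃ F, F = f.map φ := ⟨_, rfl⟩
  have hFmon : F.Monic := by rw [hF]; exact hmon.map φ
  have hFdeg : F.natDegree = 5 := by rw [hF, natDegree_map, hdeg]
  have hFsq : Squarefree F := by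
    rw [hF]
    exact ((PerfectField.separable_iff_squarefree.2 hsq).map).squarefree
  have hψi : Function.Injective (Q.map φ f) := Q.map_injective φ f hφi
  have hp : (I ^ N).IsPrincipal := (hprin N).2 dvd_rfl
  have hmin : ∀ j, 0 < j → j < N → ¬ (I ^ j).IsPrincipal := by
    intro j hj hjN h
    exact absurd (Nat.le_of_dvd hj ((hprin j).1 h)) (not_le.2 hjN)
  subst hF
  obtain ⟨J, hJdef⟩ : ∃ J : Ideal (Q (AlgebraicClosure K) (f.map φ)), J = I.map (Q.map φ f) :=
    ⟨_, rfl⟩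
  have hJ : J ≠ ⊥ := by rw [hJdef]; exact map_ne_bot _ hψi hI
  have hJpow : ∀ k, J ^ k = (I ^ k).map (Q.map φ f) := by
    intro k
    rw [hJdef, Ideal.map_pow]
  have hpJ : (J ^ N).IsPrincipal := by rw [hJpow]; exact map_prin _ hp
  have hodd : Odd f.natDegree := by rw [hdeg]; decide
  have hI0 : IsDomain (Q K f) := isDomain (g := 2) (by rw [hdeg])
  have hminJ : ∀ j, 0 < j → j < N → ¬ (J ^ j).IsPrincipal := by
    intro j hj hjN h
    rw [hJpow] at h
    exact hmin j hj hjN (bc1 K (AlgebraicClosure K) φ f hodd (I ^ j) (pow_ne_zero j hI) h)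
  obtain ⟨L, hLdef⟩ : ∃ L : ℕ → Ideal (Q (AlgebraicClosure K) (f.map φ)),
      L = fun k => MI (f.map φ) ((A k).map φ) ((B k).map φ) := ⟨_, rfl⟩
  have hL : ∀ k, SameCl (L k) (J ^ k) := by
    intro k
    rw [hLdef, hJpow]
    have h1 := sc_map (Q.map φ f) hψi (hdat k).2.2
    rw [map_MI] at h1
    exact h1
  -- the sets
  set S : Finset ℕ := (Finset.range N).filter (fun k => ¬ VG f (A k) (B k)) with hS
  have hSN : ∀ k ∈ S, k < N := fun k hk => Finset.mem_range.1 (Finset.mem_filter.1 hk).1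
  set R : Finset (AlgebraicClosure K) := (f.map φ).roots.toFinset with hR
  have hFne : f.map φ ≠ 0 := hFmon.ne_zero
  have hmemR : ∀ t, t ∈ R ↔ (f.map φ).IsRoot t := by
    intro t
    rw [hR, Multiset.mem_toFinset, mem_roots hFne]
  have hRcard : R.card ≤ 5 := by
    refine (Multiset.toFinset_card_le _).trans ?_
    rw [← hFdeg]
    exact card_roots' _
  have hpair : ∀ ab ∈ R.offDiag, (S.filter (fun k => Good f (A k) (B k) ∧
      tau (f.map φ) ab.1 ab.2 (fun i => φ (kum f (A k) (B k) i)) = 0)).card ≤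
        Nat.sqrt (2 * N) + 1 := by
    rintro ⟨a, b⟩ hab
    rw [Finset.mem_offDiag] at hab
    obtain ⟨haR, hbR, hne⟩ := hab
    rw [hmemR] at haR hbR
    simp only at haR hbR hne
    refine one_pair mii pai sid (f.map φ) J N h2E hFsq hFdeg hJ hN hpJ hminJ L hL a b haR hbR _ ?_
    intro k hk
    obtain ⟨hkS, hg, ht⟩ := Finset.mem_filter.1 hk
    refine ⟨hSN k hkS, ?_⟩
    have hgE : Good (f.map φ) ((A k).map φ) ((B k).map φ) :=
      (gmp K (AlgebraicClosure K) φ f (A k) (B k) 0 0 0 hmon).2.1 hg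
    have hAev : ∀ t, (f.map φ).IsRoot t → ((A k).map φ).eval t ≠ 0 := by
      intro t htt h0
      obtain ⟨u, v, huv⟩ := hgE.cop
      have h1 := congrArg (Polynomial.eval t) huv
      rw [eval_add, eval_mul, eval_mul, h0, htt, mul_zero, mul_zero, add_zero, eval_one] at h1
      exact zero_ne_one h1
    obtain ⟨A', B', V, hT⟩ := trl (AlgebraicClosure K) (f.map φ) ((A k).map φ) ((B k).map φ) a h2E
      hFmon hFdeg hFsq hgE.toMum hgE.two haR (hAev a haR)
    have hev := hT.evb b hbR hne.symm (hAev b hbR)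
    have hkm : kum (f.map φ) ((A k).map φ) ((B k).map φ) =
        fun i => φ (kum f (A k) (B k) i) := by
      funext i
      exact (map_kum φ f (A k) (B k) i).symm
    have ht' : tau (f.map φ) a b (fun i => φ (kum f (A k) (B k) i)) = 0 := ht
    rw [hkm, ht', mul_zero] at hev
    have hA'b : A'.IsRoot b := by
      rcases mul_eq_zero.1 hev with h | h
      · exact h
      · exact absurd h (hAev a haR)
    obtain ⟨x, y, hm, he⟩ := split_at Pool.Agent.SZT.H77.mik (f.map φ) A' B' b hFsq hT.mum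
      hT.two hbR hA'b
    refine ⟨x, y, hm, ?_⟩
    rw [he, hLdef]
    exact trl_sc mii h2E hFsq hT
  have hbad : (S.filter (fun k => ¬ Good f (A k) (B k))).card ≤
      6 * (Nat.sqrt (2 * N) + 1) + 2 := by
    refine cnt K f I N A B h2K hsq hdeg hI hN hp hmin hdat _ ?_
    intro k hk
    obtain ⟨hkS, hg⟩ := Finset.mem_filter.1 hk
    exact ⟨hSN k hkS, hg⟩
  have hcover : S ⊆ (S.filter (fun k => ¬ Good f (A k) (B k))) ∪
      R.offDiag.biUnion (fun ab => S.filter (fun k => Good f (A k) (B k) ∧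
        tau (f.map φ) ab.1 ab.2 (fun i => φ (kum f (A k) (B k) i)) = 0)) := by
    intro k hk
    rw [Finset.mem_union, Finset.mem_filter, Finset.mem_biUnion]
    by_cases hg : Good f (A k) (B k)
    swap
    · exact Or.inl ⟨hk, hg⟩
    right
    have hnv : ¬ VG f (A k) (B k) := (Finset.mem_filter.1 hk).2
    by_contra hcon
    apply hnv
    refine vgt K (AlgebraicClosure K) φ f (A k) (B k) hmon hg ?_
    intro c d hc hd hcd h0
    apply hcon
    refine ⟨(c, d), ?_, ?_⟩
    · rw [Finset.mem_offDiag, hmemR, hmemR]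
      exact ⟨hc, hd, hcd⟩
    · rw [Finset.mem_filter]
      exact ⟨hk, hg, h0⟩
  have hbi : (R.offDiag.biUnion (fun ab => S.filter (fun k => Good f (A k) (B k) ∧
        tau (f.map φ) ab.1 ab.2 (fun i => φ (kum f (A k) (B k) i)) = 0))).card ≤
      R.offDiag.card * (Nat.sqrt (2 * N) + 1) :=
    Finset.card_biUnion_le_card_mul _ _ _ hpair
  have hoff : R.offDiag.card ≤ 20 := by
    rw [Finset.offDiag_card]
    have h1 : R.card ≤ 5 := hRcard
    generalize R.card = n at h1
    interval_cases n <;> norm_num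
  have hSc : S.card ≤ 26 * (Nat.sqrt (2 * N) + 1) + 2 := by
    have h1 := (Finset.card_le_card hcover).trans (Finset.card_union_le _ _)
    have h3 := Nat.mul_le_mul_right (Nat.sqrt (2 * N) + 1) hoff
    omega
  have hset : {k : ℕ | k < N ∧ ¬ VG f (A k) (B k)} = (S : Set ℕ) := by
    ext k
    rw [Finset.mem_coe, hS, Finset.mem_filter, Finset.mem_range]
    rfl
  rw [hset, Set.ncard_coe_finset]
  have h3 : (Nat.sqrt (2 * N) : ℝ) ≤ 71 / 50 * Real.sqrt N := by
    have h4 : (Nat.sqrt (2 * N) : ℝ) ≤ Real.sqrt (2 * N : ℕ) := Real.nat_sqrt_le_real_sqrt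
    refine h4.trans ?_
    push_cast
    rw [Real.sqrt_mul (by norm_num)]
    refine mul_le_mul_of_nonneg_right ?_ (Real.sqrt_nonneg _)
    rw [Real.sqrt_le_left (by norm_num)]
    norm_num
  have h4 : (S.card : ℝ) ≤ 26 * ((Nat.sqrt (2 * N) : ℝ) + 1) + 2 := by exact_mod_cast hSc
  have h5 : 0 ≤ Real.sqrt (N : ℝ) := Real.sqrt_nonneg _
  linarith

end Pool.Agent.KDT.H16
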