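import Pool.Agent.KDT.StmtsZ

set_option autoImplicit false

/-!
# KDT, block Z, row SBG: the stabiliser is a group
-/

namespace Pool.Agent.KDT.H16

open Polynomial H58Q Pool.Agent.SZT Pool.Agent.KDT.Z

/-- the image of a point under an automorphism -/
theorem sbg_pt {k U : Type} [Field k] [Field U] [Algebra k U] (f : k[X]) (g : U[X])
    (hg : g = f.map (algebraMap k U)) (σ : U ≃ₐ[k] U) (z : Pt g) :
    ∃ w : Pt g, w.a = σ z.a ∧ w.b = σ z.b := by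
  refine ⟨⟨σ z.a, σ z.b, ?_⟩, rfl, rfl⟩
  have h1 : ∀ x : U, g.eval x = Polynomial.aeval x f := by
    intro x
    rw [hg, Polynomial.eval_map, Polynomial.aeval_def]
  rw [← map_pow, z.on, h1, h1]
  exact (Polynomial.aeval_algHom_apply (σ : U →ₐ[k] U) z.a f).symm

theorem zsbg : SbgStatement := by
  intro k U _ _ _ f g hE J _ th cl act Jk hJ
  have hmul : ∀ σ τ : U ≃ₐ[k] U, ∀ c, act (σ * τ) c = act σ (act τ c) := by
    intro σ τ c
    rcases hJ.toJG.cover c with h | ⟨z, h⟩ | ⟨q, hq, h⟩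
    · rw [h, map_zero, map_zero, map_zero]
    · obtain ⟨w1, ha1, hb1⟩ := sbg_pt f g hE.gm τ z
      obtain ⟨w2, ha2, hb2⟩ := sbg_pt f g hE.gm σ w1
      rw [h, hJ.act_th τ z w1 ha1 hb1, hJ.act_th σ w1 w2 ha2 hb2,
        hJ.act_th (σ * τ) z w2 (by rw [ha2, ha1]; rfl) (by rw [hb2, hb1]; rfl)]
    · obtain ⟨h1, h2⟩ := hJ.act_cl τ q hq
      obtain ⟨h3, h4⟩ := hJ.act_cl σ _ h1
      obtain ⟨h5, h6⟩ := hJ.act_cl (σ * τ) q hq
      rw [h, h2, h4, h6]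
      rfl
  refine ⟨hmul, ?_⟩
  intro q hq
  have hone : act 1 (cl q) = cl q := by
    obtain ⟨-, h2⟩ := hJ.act_cl 1 q hq
    rw [h2]
    rfl
  have hadd : ∀ a b : J, (a ∈ Jk ∧ a ∈ Stb cl act q) → (b ∈ Jk ∧ b ∈ Stb cl act q) →
      (a + b ∈ Jk ∧ a + b ∈ Stb cl act q) := by
    rintro a b ⟨ha, σ, hσ⟩ ⟨hb, τ, hτ⟩
    refine ⟨Jk.add_mem ha hb, τ * σ, ?_⟩
    rw [hmul, hσ, map_add, hτ, hJ.act_k τ a ha, add_assoc, add_comm b a]
  have hzero : (0 : J) ∈ Jk ∧ (0 : J) ∈ Stb cl act q :=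
    ⟨Jk.zero_mem, 1, by rw [hone, add_zero]⟩
  have hneg : ∀ a : J, (a ∈ Jk ∧ a ∈ Stb cl act q) → (-a ∈ Jk ∧ -a ∈ Stb cl act q) := by
    rintro a ⟨ha, σ, hσ⟩
    refine ⟨Jk.neg_mem ha, σ⁻¹, ?_⟩
    have h1 : act σ⁻¹ (act σ (cl q)) = cl q := by
      rw [← hmul, inv_mul_cancel, hone]
    rw [hσ, map_add, hJ.act_k σ⁻¹ a ha] at h1
    exact eq_add_neg_of_add_eq h1
  let S : AddSubmonoid J :=
    { carrier := {h | h ∈ Jk ∧ h ∈ Stb cl act q}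
      zero_mem' := hzero
      add_mem' := fun {a b} ha hb => hadd a b ha hb }
  exact ⟨{ S with neg_mem' := fun {a} ha => hneg a ha }, fun h => Iff.rfl⟩

end Pool.Agent.KDT.H16
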