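import Pool.Agent.KDT.StmtsM

set_option autoImplicit false

/-!
# KDT, block Z, row SPO: a specialisation of a point is a point
-/

namespace Pool.Agent.KDT.H16

open Polynomial H58Q Pool.Agent.SZT Pool.Agent.KDT.Z

/-- `X^n = α_n X + β_n` modulo `X^2 - s X + p`, the pair `(α_n, β_n)` -/
noncomputable def spoAB (k : Type) [Field k] : ℕ → MvPolynomial (Fin 4) k × MvPolynomial (Fin 4) k
  | 0 => (0, 1)
  | n + 1 => (MvPolynomial.X 0 * (spoAB k n).1 + (spoAB k n).2,
      -(MvPolynomial.X 1 * (spoAB k n).1))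

noncomputable def spoR1 {k : Type} [Field k] (f : k[X]) : MvPolynomial (Fin 4) k :=
  2 * MvPolynomial.X 2 * MvPolynomial.X 3 + MvPolynomial.X 3 ^ 2 * MvPolynomial.X 0
    - ∑ i ∈ Finset.range (f.natDegree + 1), MvPolynomial.C (f.coeff i) * (spoAB k i).1

noncomputable def spoR0 {k : Type} [Field k] (f : k[X]) : MvPolynomial (Fin 4) k :=
  MvPolynomial.X 2 ^ 2 - MvPolynomial.X 3 ^ 2 * MvPolynomial.X 1
    - ∑ i ∈ Finset.range (f.natDegree + 1), MvPolynomial.C (f.coeff i) * (spoAB k i).2

theorem spo_monic {F : Type} [Field F] (q : Fin 4 → F) : (pA q).Monic ∧ (pA q).natDegree = 2 := by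
  have h : pA q = X ^ 2 + (C (-(q 0)) * X + C (q 1)) := by
    unfold pA
    rw [C_neg]
    ring
  have hd : (C (-(q 0)) * X + C (q 1)).degree < ((2 : ℕ) : WithBot ℕ) := by
    refine lt_of_le_of_lt degree_linear_le ?_
    norm_num
  have h2 : (C (-(q 0)) * X + C (q 1)).degree < (X ^ 2 : F[X]).degree := by
    rw [degree_X_pow]
    exact hd
  constructor
  · rw [h]
    exact monic_X_pow_add hd
  · rw [h]
    rw [natDegree_eq_of_degree_eq (degree_add_eq_left_of_degree_lt h2), natDegree_X_pow]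

theorem spo_pow {k F : Type} [Field k] [Field F] (φ : k →+* F) (q : Fin 4 → F) (n : ℕ) :
    pA q ∣ X ^ n - (C (MvPolynomial.eval₂ φ q (spoAB k n).1) * X
      + C (MvPolynomial.eval₂ φ q (spoAB k n).2)) := by
  induction n with
  | zero =>
    have : (X ^ 0 - (C (MvPolynomial.eval₂ φ q (spoAB k 0).1) * X
      + C (MvPolynomial.eval₂ φ q (spoAB k 0).2)) : F[X]) = 0 := by
      simp [spoAB]
    rw [this]
    exact dvd_zero _
  | succ n ih =>
    obtain ⟨W, hW⟩ := ih
    refine ⟨X * W + C (MvPolynomial.eval₂ φ q (spoAB k n).1), ?_⟩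
    have e1 : MvPolynomial.eval₂ φ q (spoAB k (n + 1)).1
        = q 0 * MvPolynomial.eval₂ φ q (spoAB k n).1 + MvPolynomial.eval₂ φ q (spoAB k n).2 := by
      simp [spoAB]
    have e2 : MvPolynomial.eval₂ φ q (spoAB k (n + 1)).2
        = -(q 1 * MvPolynomial.eval₂ φ q (spoAB k n).1) := by
      simp only [spoAB]
      rw [← MvPolynomial.coe_eval₂Hom, map_neg, map_mul, MvPolynomial.coe_eval₂Hom,
        MvPolynomial.eval₂_X]
    rw [e1, e2]
    generalize MvPolynomial.eval₂ φ q (spoAB k n).1 = a at *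
    generalize MvPolynomial.eval₂ φ q (spoAB k n).2 = b at *
    have h1 : (X : F[X]) ^ n = pA q * W + (C a * X + C b) := by
      rw [← hW]
      ring
    rw [pow_succ, h1]
    simp only [pA, C_add, C_mul, C_neg]
    ring

theorem spo_on {k F : Type} [Field k] [Field F] (φ : k →+* F) (f : k[X]) (q : Fin 4 → F) :
    On (f.map φ) q ↔ MvPolynomial.eval₂ φ q (spoR1 f) = 0 ∧ MvPolynomial.eval₂ φ q (spoR0 f) = 0 := by
  have hf : f.map φ = ∑ i ∈ Finset.range (f.natDegree + 1), C (φ (f.coeff i)) * X ^ i := by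
    conv_lhs => rw [f.as_sum_range_C_mul_X_pow]
    simp [Polynomial.map_sum]
  have e1 : MvPolynomial.eval₂ φ q (spoR1 f) = 2 * q 2 * q 3 + q 3 ^ 2 * q 0
      - ∑ i ∈ Finset.range (f.natDegree + 1), φ (f.coeff i)
        * MvPolynomial.eval₂ φ q (spoAB k i).1 := by
    rw [← MvPolynomial.coe_eval₂Hom]
    simp [spoR1]
  have e0 : MvPolynomial.eval₂ φ q (spoR0 f) = q 2 ^ 2 - q 3 ^ 2 * q 1
      - ∑ i ∈ Finset.range (f.natDegree + 1), φ (f.coeff i)
        * MvPolynomial.eval₂ φ q (spoAB k i).2 := by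
    rw [← MvPolynomial.coe_eval₂Hom]
    simp [spoR0]
  have key : pA q ∣ (pB q ^ 2 - f.map φ) - (C (MvPolynomial.eval₂ φ q (spoR1 f)) * X
      + C (MvPolynomial.eval₂ φ q (spoR0 f))) := by
    have h1 : pA q ∣ ∑ i ∈ Finset.range (f.natDegree + 1), C (φ (f.coeff i)) *
        (X ^ i - (C (MvPolynomial.eval₂ φ q (spoAB k i).1) * X
        + C (MvPolynomial.eval₂ φ q (spoAB k i).2))) := by
      refine Finset.dvd_sum ?_
      intro i _
      exact Dvd.dvd.mul_left (spo_pow φ q i) _
    have h2 : (pB q ^ 2 - f.map φ) - (C (MvPolynomial.eval₂ φ q (spoR1 f)) * X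
      + C (MvPolynomial.eval₂ φ q (spoR0 f)))
      = C (q 3 ^ 2) * pA q - ∑ i ∈ Finset.range (f.natDegree + 1), C (φ (f.coeff i)) *
        (X ^ i - (C (MvPolynomial.eval₂ φ q (spoAB k i).1) * X
        + C (MvPolynomial.eval₂ φ q (spoAB k i).2))) := by
      have h3 : ∑ i ∈ Finset.range (f.natDegree + 1), C (φ (f.coeff i)) *
        (X ^ i - (C (MvPolynomial.eval₂ φ q (spoAB k i).1) * X
        + C (MvPolynomial.eval₂ φ q (spoAB k i).2)))
        = f.map φ - (C (∑ i ∈ Finset.range (f.natDegree + 1), φ (f.coeff i)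
        * MvPolynomial.eval₂ φ q (spoAB k i).1) * X
          + C (∑ i ∈ Finset.range (f.natDegree + 1), φ (f.coeff i)
        * MvPolynomial.eval₂ φ q (spoAB k i).2)) := by
        rw [hf, map_sum, map_sum, Finset.sum_mul, ← Finset.sum_add_distrib,
          ← Finset.sum_sub_distrib]
        refine Finset.sum_congr rfl ?_
        intro i _
        rw [C_mul, C_mul]
        ring
      rw [h3, e1, e0]
      simp only [pA, pB, C_add, C_sub, C_mul, C_pow]
      have h4 : (C (2 : F) : F[X]) = 2 := by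
        exact map_ofNat C 2
      rw [h4]
      ring
    rw [h2]
    exact dvd_sub (dvd_mul_left _ _) h1
  have hiff : On (f.map φ) q ↔ pA q ∣ (C (MvPolynomial.eval₂ φ q (spoR1 f)) * X
      + C (MvPolynomial.eval₂ φ q (spoR0 f))) := by
    unfold On
    constructor
    · intro h
      have := dvd_sub h key
      rwa [sub_sub_cancel] at this
    · intro h
      have := dvd_add key h
      rwa [sub_add_cancel] at this
  rw [hiff]
  generalize MvPolynomial.eval₂ φ q (spoR1 f) = a
  generalize MvPolynomial.eval₂ φ q (spoR0 f) = b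
  constructor
  · intro h
    have h0 : (C a * X + C b : F[X]) = 0 := by
      refine Polynomial.eq_zero_of_dvd_of_degree_lt h ?_
      refine lt_of_le_of_lt degree_linear_le ?_
      rw [degree_eq_natDegree (spo_monic q).1.ne_zero, (spo_monic q).2]
      norm_num
    constructor
    · have := congrArg (fun P => Polynomial.coeff P 1) h0
      simpa using this
    · have := congrArg (fun P => Polynomial.coeff P 0) h0
      simpa using this
  · rintro ⟨rfl, rfl⟩
    simp

theorem zspo : SpoStatement := by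
  intro k U _ _ _ f g _ hg q t hs hq
  rw [hg, spo_on] at hq
  have h1 : On (f.map (RingHom.id k)) t := by
    rw [spo_on]
    constructor
    · exact hs _ hq.1
    · exact hs _ hq.2
  rwa [Polynomial.map_id] at h1

end Pool.Agent.KDT.H16
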